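import Mathlib
import Pool.Agent.H59.KK1

set_option autoImplicit false

namespace Pool.Agent.Results.MP_4d3999_nt.Lower

/-- For the Kakutani `5x+1` map and every `ρ` with `0 < ρ < log 25 / log 12` (about 1.2954),
infinitely many `n ≥ 1` have an iterate larger than `n ^ ρ`. -/
theorem result :
    ∀ ρ : ℝ, 0 < ρ → ρ < Real.log 25 / Real.log 12 →
      {n : ℕ | 1 ≤ n ∧ ∃ i : ℕ, (n : ℝ) ^ ρ <
        (((fun m : ℕ => if m % 2 = 0 then m / 2 else if m % 3 = 0 then m / 3 else 5 * m + 1)^[i]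
          n : ℕ) : ℝ)}.Infinite :=
  fun ρ h0 h1 => Pool.Agent.H59.KK.main ρ h0 h1

end Pool.Agent.Results.MP_4d3999_nt.Lower
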